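import Pool.Agent.H.MP_256cd6_an.A

set_option autoImplicit false

namespace Pool.Agent.Results.MP_256cd6_an.No
open Filter Topology

/-- the hom Markov tree-shift on the `d`-tree -/
def TS {k : ℕ} (M : Fin k → Fin k → Bool) (d : ℕ) : Set (List (Fin d) → Fin k) :=
  {t | ∀ g i, M (t g) (t (g ++ [i])) = true}

/-- number of restrictions to words of length at most `n` -/
noncomputable def pat {k : ℕ} (M : Fin k → Fin k → Bool) (d n : ℕ) : ℕ :=
  ((fun (t : List (Fin d) → Fin k) (w : {w : List (Fin d) // w.length ≤ n}) => t w.1) ''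
    TS M d).ncard

theorem result (d : ℕ) (hd : 2 ≤ d) :
    ∃ α β : ℝ, (d - 1) / d * Real.log 2 ≤ α ∧ α < β ∧ β ≤ (d - 1) * Real.log 2 ∧
      ∀ (k : ℕ) (M : Fin k → Fin k → Bool) (h : ℝ),
        Tendsto (fun n : ℕ => Real.log (pat M d n) / (((d : ℝ) ^ (n + 1) - 1) / (d - 1)))
          atTop (𝓝 h) → h ∉ Set.Ioo α β := by
  rcases hd.eq_or_lt with rfl | h3
  · have e1 := Real.log_le_log (by norm_num) (show (2 : ℝ) ^ 4 ≤ 61 by norm_num)
    have e2 := Real.log_le_log (by norm_num) (show (64 : ℝ) ≤ 2 ^ 8 by norm_num)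
    have e3 := Real.log_lt_log (by norm_num) (show (61 : ℝ) < 64 by norm_num)
    rw [Real.log_pow] at e1 e2
    refine ⟨_, _, ?_, by linarith, ?_, fun k M h hh => Pool.Agent.H.MP_256cd6_an.two M hh⟩ <;>
      push_cast at * <;> linarith
  · have d3 : (3 : ℝ) ≤ d := by exact_mod_cast h3
    have d0 : 0 < (d - 1 : ℝ) / d := div_pos (by linarith) (by linarith)
    refine ⟨_, _, mul_le_mul_of_nonneg_left (Real.log_le_log two_pos (by norm_num)) d0.le,
      mul_lt_mul_of_pos_left (Real.log_lt_log (by norm_num) (by norm_num)) d0, ?_,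
      fun k M h hh => Pool.Agent.H.MP_256cd6_an.big M hd hh h3⟩
    have e1 := Real.log_le_log (by norm_num) (show (3 : ℝ) ≤ 2 ^ 2 by norm_num)
    rw [Real.log_pow] at e1
    have e2 := Real.log_pos (show (1 : ℝ) < 2 by norm_num)
    rw [div_mul_eq_mul_div, mul_div_assoc]
    refine mul_le_mul_of_nonneg_left ?_ (by linarith)
    rw [div_le_iff₀ (by linarith)]
    push_cast at e1
    nlinarith

end Pool.Agent.Results.MP_256cd6_an.No
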